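import Mathlib
import Pool.Agent.H451R3.Alg

/-!
For every nondegenerate interval `I` of the real line, the set of real-valued smooth functions on
`I` whose Taylor series has radius of convergence `0` at every point of `I` is maximal lineable in
the real vector space of smooth functions on `I`: together with `0` it contains a real vector
subspace of dimension the continuum, which is the dimension of the whole space.
-/

set_option autoImplicit false

open Filter Topology Cardinal

namespace Pool.Agent.Results.MP_1dc069_an.MaximalLineable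

/-- the extension by `0` of a function on a set `I` of real numbers -/
noncomputable def ext (I : Set ℝ) (f : I → ℝ) : ℝ → ℝ :=
  fun x => open Classical in if h : x ∈ I then f ⟨x, h⟩ else 0

lemma ext_apply (I : Set ℝ) (f : I → ℝ) {x : ℝ} (h : x ∈ I) : ext I f x = f ⟨x, h⟩ := by
  simp [ext, h]

lemma ext_add (I : Set ℝ) (f g : I → ℝ) : ext I (f + g) = ext I f + ext I g := by
  funext x
  by_cases h : x ∈ I
  · simp [ext, h]
  · simp [ext, h]

lemma ext_smul (I : Set ℝ) (a : ℝ) (f : I → ℝ) : ext I (a • f) = a • ext I f := by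
  funext x
  by_cases h : x ∈ I
  · simp [ext, h]
  · simp [ext, h]

lemma ext_zero (I : Set ℝ) : ext I 0 = 0 := by
  funext x
  by_cases h : x ∈ I
  · simp [ext, h]
  · simp [ext, h]

/-- the real vector space of infinitely differentiable real functions on `I` (one-sided derivatives
at the endpoints that belong to `I`) -/
noncomputable def CInf (I : Set ℝ) : Submodule ℝ (I → ℝ) where
  carrier := {f | ContDiffOn ℝ (⊤ : ℕ∞) (ext I f) I}
  add_mem' {f g} hf hg := by
    change ContDiffOn ℝ (⊤ : ℕ∞) (ext I (f + g)) I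
    rw [ext_add]
    exact ContDiffOn.add hf hg
  zero_mem' := by
    change ContDiffOn ℝ (⊤ : ℕ∞) (ext I 0) I
    rw [ext_zero]
    exact contDiffOn_const (c := (0 : ℝ))
  smul_mem' a f hf := by
    change ContDiffOn ℝ (⊤ : ℕ∞) (ext I (a • f)) I
    rw [ext_smul]
    exact ContDiffOn.const_smul a hf

/-- the radius of convergence of the Taylor series of `f` at `x` -/
noncomputable def rho {I : Set ℝ} (f : CInf I) (x : I) : ENNReal :=
  (FormalMultilinearSeries.ofScalars ℝ
    (fun n : ℕ => iteratedDerivWithin n (ext I f.1) I x / (n.factorial : ℝ))).radius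

/-- exponential sums with positive exponents -/
noncomputable def comb : (Set.Ioi (0 : ℝ) →₀ ℝ) →ₗ[ℝ] (ℝ → ℝ) :=
  Finsupp.linearCombination ℝ (fun t : Set.Ioi (0 : ℝ) => fun s : ℝ => Real.exp (t.1 * s))

lemma comb_eq (p : Set.Ioi (0 : ℝ) →₀ ℝ) :
    comb p = fun s => ∑ t ∈ p.support, p t * Real.exp (t.1 * s) := by
  funext s
  rw [comb, Finsupp.linearCombination_apply, Finsupp.sum, Finset.sum_apply]
  rfl

lemma comb_analytic (p : Set.Ioi (0 : ℝ) →₀ ℝ) (s : ℝ) : AnalyticAt ℝ (comb p) s := by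
  rw [comb_eq]
  apply Finset.analyticAt_fun_sum
  intro t _
  exact analyticAt_const.mul ((analyticAt_const.mul analyticAt_id).rexp)

lemma comb_tendsto (p : Set.Ioi (0 : ℝ) →₀ ℝ) : Tendsto (comb p) atBot (𝓝 0) := by
  rw [comb_eq]
  have h0 : (∑ t ∈ p.support, p t * (0 : ℝ)) = 0 := by simp
  have h1 : Tendsto (fun s => ∑ t ∈ p.support, p t * Real.exp (t.1 * s)) atBot
      (𝓝 (∑ t ∈ p.support, p t * (0 : ℝ))) := by
    apply tendsto_finsetSum
    intro t _
    apply Tendsto.const_mul
    exact Real.tendsto_exp_atBot.comp (tendsto_id.const_mul_atBot t.2)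
  rwa [h0] at h1

lemma comb_ne_zero {p : Set.Ioi (0 : ℝ) →₀ ℝ} (hp : p ≠ 0) : comb p ≠ 0 := by
  intro h
  have h1 := (linearIndependent_monoidHom (Multiplicative ℝ) ℝ).comp
    (fun t : Set.Ioi (0 : ℝ) => Pool.Agent.H451R3.PS.chi (𝕜 := ℝ) t.1)
    (fun a b hab => Subtype.ext (Pool.Agent.H451R3.PS.chi_injective hab))
  rw [linearIndependent_iff'] at h1
  apply hp
  have h2 := h1 p.support p (by
    funext s
    have := congrFun h s.toAdd
    rw [comb_eq] at this
    simp only [Finset.sum_apply, Pi.smul_apply, smul_eq_mul, Pi.zero_apply, Function.comp]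
    exact this)
  ext m
  by_cases hm : m ∈ p.support
  · rw [h2 m hm, Finsupp.coe_zero, Pi.zero_apply]
  · rw [Finsupp.notMem_support_iff.1 hm, Finsupp.coe_zero, Pi.zero_apply]

open Pool.Agent.H451R3.PS (f0 contDiff_f0)

lemma contDiff_comp (p : Set.Ioi (0 : ℝ) →₀ ℝ) : ContDiff ℝ (⊤ : ℕ∞) (comb p ∘ f0) :=
  (contDiff_iff_contDiffAt.2 fun s => (comb_analytic p s).contDiffAt).comp contDiff_f0

/-- the map whose range is the subspace -/
noncomputable def Phi (I : Set ℝ) : (Set.Ioi (0 : ℝ) →₀ ℝ) →ₗ[ℝ] CInf I where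
  toFun p := ⟨fun x => comb p (f0 x), by
    change ContDiffOn ℝ (⊤ : ℕ∞) (ext I _) I
    refine (contDiff_comp p).contDiffOn.congr fun x hx => ?_
    rw [ext_apply I _ hx]
    rfl⟩
  map_add' p q := by
    apply Subtype.ext
    funext x
    simp only [map_add, Pi.add_apply, Submodule.coe_add]
  map_smul' a p := by
    apply Subtype.ext
    funext x
    simp only [map_smul, Pi.smul_apply, Submodule.coe_smul, RingHom.id_apply]

lemma rho_Phi {I : Set ℝ} (hI : UniqueDiffOn ℝ I) {p : Set.Ioi (0 : ℝ) →₀ ℝ} (hp : p ≠ 0) (x : I) :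
    rho (Phi I p) x = 0 := by
  rw [← Pool.Agent.H451R3.PS.radius_comp' (comb_analytic p) (comb_tendsto p) (comb_ne_zero hp) x.1]
  unfold rho
  congr 1
  congr 1
  funext n
  congr 1
  rw [← iteratedDerivWithin_eq_iteratedDeriv hI
    ((contDiff_comp p).contDiffAt.of_le (by exact_mod_cast le_top)) x.2]
  apply iteratedDerivWithin_congr _ x.2
  intro y hy
  rw [ext_apply I _ hy]
  rfl

lemma rho_zero {I : Set ℝ} (x : I) : rho (0 : CInf I) x = ⊤ := by
  unfold rho
  apply FormalMultilinearSeries.radius_eq_top_of_eventually_eq_zero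
  filter_upwards with n
  rw [← norm_eq_zero, FormalMultilinearSeries.ofScalars_norm, norm_eq_zero]
  have h1 : ext I (0 : CInf I).1 = fun _ => (0 : ℝ) := ext_zero I
  rw [h1, iteratedDerivWithin_fun_const_zero]
  simp

lemma Phi_injective {I : Set ℝ} (hI : UniqueDiffOn ℝ I) (hne : I.Nonempty) :
    Function.Injective (Phi I) := by
  rw [injective_iff_map_eq_zero]
  intro p hp
  by_contra h
  obtain ⟨x, hx⟩ := hne
  have h1 := rho_Phi hI h ⟨x, hx⟩
  rw [hp, rho_zero] at h1
  exact ENNReal.top_ne_zero h1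

lemma card_le (I : Set ℝ) : Cardinal.mk (CInf I) ≤ 𝔠 := by
  obtain ⟨s, hs, hd⟩ := TopologicalSpace.exists_countable_dense I
  have hinj : Function.Injective (fun (f : CInf I) (y : s) => f.1 y.1) := by
    intro f g hfg
    apply Subtype.ext
    have hc : ∀ f : CInf I, Continuous f.1 := by
      intro f
      have h1 : ContinuousOn (ext I f.1) I := ContDiffOn.continuousOn f.2
      have h2 : I.domRestrict (ext I f.1) = f.1 := by
        funext x
        exact ext_apply I _ x.2
      rw [← h2]
      exact continuousOn_iff_continuous_domRestrict.1 h1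
    exact Continuous.ext_on hd (hc f) (hc g) fun y hy => congrFun hfg ⟨y, hy⟩
  have : Countable s := hs
  calc Cardinal.mk (CInf I) ≤ Cardinal.mk (s → ℝ) := Cardinal.mk_le_of_injective hinj
    _ = 𝔠 ^ Cardinal.mk s := by rw [Cardinal.mk_pi, Cardinal.prod_const]; simp [Cardinal.mk_real]
    _ ≤ 𝔠 ^ ℵ₀ := Cardinal.power_le_power_left Cardinal.continuum_ne_zero (Cardinal.mk_le_aleph0)
    _ = 𝔠 := Cardinal.continuum_power_aleph0

theorem result (I : Set ℝ) (hI : I.OrdConnected) (hn : I.Nontrivial) :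
    ∃ M : Submodule ℝ (CInf I), Module.rank ℝ M = 𝔠 ∧ Module.rank ℝ (CInf I) = 𝔠 ∧
      ∀ f ∈ M, f ≠ 0 → ∀ x : I, rho f x = 0 := by
  have hU : UniqueDiffOn ℝ I := by
    apply uniqueDiffOn_convex hI.convex
    obtain ⟨a, ha, b, hb, hab⟩ := hn.exists_lt
    refine ⟨(a + b) / 2, ?_⟩
    rw [mem_interior]
    exact ⟨Set.Ioo a b, fun y hy => hI.out ha hb ⟨hy.1.le, hy.2.le⟩, isOpen_Ioo,
      by constructor <;> linarith⟩
  have hinj := Phi_injective hU hn.nonempty
  have hM : Module.rank ℝ (LinearMap.range (Phi I)) = 𝔠 := by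
    rw [← (LinearEquiv.ofInjective (Phi I) hinj).rank_eq, rank_finsupp_self', Cardinal.mk_Ioi_real]
  refine ⟨LinearMap.range (Phi I), hM, ?_, ?_⟩
  · apply le_antisymm
    · exact (rank_le_card ℝ (CInf I)).trans (card_le I)
    · rw [← hM]
      exact Submodule.rank_le _
  · rintro f ⟨p, rfl⟩ hf x
    refine rho_Phi hU (fun h => hf (by rw [h, map_zero])) x

end Pool.Agent.Results.MP_1dc069_an.MaximalLineable
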